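import Pool.Agent.H705.RO.Stm

/-!
# Task STOP (helper86, for helper705): first index and independence
-/

set_option autoImplicit false

namespace Pool.Agent.H86.RO

open MeasureTheory ProbabilityTheory Filter Topology Finset
open Pool.Agent.H705.RO

theorem T_STOP : P_STOP := by
  intro Ω E F _ _ _ P _ Y T hY hT hYT K a b τ ha hb hτ
  set c : ℕ → Set E := fun k => a k ∩ {e | ∀ j < k, e ∉ a j} with hc
  have hcm : ∀ k, MeasurableSet (c k) := by
    intro k
    refine (ha k).inter ?_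
    have h1 : {e | ∀ j < k, e ∉ a j} = ⋂ j ∈ Finset.range k, (a j)ᶜ := by
      ext e
      simp only [Set.mem_iInter, Finset.mem_range, Set.mem_compl_iff]
      exact Iff.rfl
    rw [h1]
    exact Finset.measurableSet_biInter _ fun j _ => (ha j).compl
  have hsub : {ω | ∀ k < K, Y ω ∈ a k → T ω ∈ b k} ⊆
      {ω | ∀ k < K, Y ω ∉ a k} ∪ ⋃ k ∈ Finset.range K, (Y ⁻¹' (c k) ∩ T ⁻¹' (b k)) := by
    intro ω hω
    by_cases h : ∃ k, k < K ∧ Y ω ∈ a k
    · right
      classical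
      have h1 := Nat.find_spec h
      rw [Set.mem_iUnion₂]
      refine ⟨Nat.find h, Finset.mem_range.2 h1.1, ⟨h1.2, ?_⟩, hω _ h1.1 h1.2⟩
      intro j hj hja
      exact Nat.find_min h hj ⟨lt_trans hj h1.1, hja⟩
    · left
      intro k hk hka
      exact h ⟨k, hk, hka⟩
  have hdis : Set.PairwiseDisjoint (↑(Finset.range K)) (fun k => Y ⁻¹' (c k)) := by
    have key : ∀ i j, i < j → Disjoint (Y ⁻¹' (c i)) (Y ⁻¹' (c j)) := by
      intro i j hij
      rw [Set.disjoint_left]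
      intro ω h1 h2
      exact h2.2 i hij h1.1
    intro i _ j _ hij
    rcases lt_or_gt_of_ne hij with h | h
    · exact key i j h
    · exact (key j i h).symm
  have hsum : ∑ k ∈ Finset.range K, P (Y ⁻¹' (c k)) ≤ 1 := by
    rw [← measure_biUnion_finset hdis (fun k _ => hY (hcm k))]
    exact prob_le_one
  have h2 : P (⋃ k ∈ Finset.range K, (Y ⁻¹' (c k) ∩ T ⁻¹' (b k))) ≤ τ := by
    refine (measure_biUnion_finset_le _ _).trans ?_
    calc ∑ k ∈ Finset.range K, P (Y ⁻¹' (c k) ∩ T ⁻¹' (b k))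
        ≤ ∑ k ∈ Finset.range K, P (Y ⁻¹' (c k)) * τ := by
          refine Finset.sum_le_sum fun k hk => ?_
          rw [hYT.measure_inter_preimage_eq_mul _ _ (hcm k) (hb k)]
          exact mul_le_mul_right (hτ k (Finset.mem_range.1 hk)) _
      _ = (∑ k ∈ Finset.range K, P (Y ⁻¹' (c k))) * τ := by rw [Finset.sum_mul]
      _ ≤ 1 * τ := mul_le_mul_left hsum _
      _ = τ := one_mul τ
  calc P {ω | ∀ k < K, Y ω ∈ a k → T ω ∈ b k}
      ≤ P ({ω | ∀ k < K, Y ω ∉ a k} ∪ ⋃ k ∈ Finset.range K, (Y ⁻¹' (c k) ∩ T ⁻¹' (b k))) :=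
        measure_mono hsub
    _ ≤ P {ω | ∀ k < K, Y ω ∉ a k} +
          P (⋃ k ∈ Finset.range K, (Y ⁻¹' (c k) ∩ T ⁻¹' (b k))) := measure_union_le _ _
    _ ≤ P {ω | ∀ k < K, Y ω ∉ a k} + τ := by gcongr

end Pool.Agent.H86.RO
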